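import Pool.Agent.Helper18.KC.Defs
import Pool.Graph.R_seed8.H175R2.Menger

set_option autoImplicit false

/-!
# MEN: two routes

Two-path Menger for reachability through a set system, from the two-path theorem of the library.
-/

namespace Pool.Agent.Helper46.KC

open Pool.Agent.H175R2 (Cn Tc cpt)
open BNTW (RE)

section graph

open Finset Classical

variable {X : Type} (G : SimpleGraph X)

/-- `Q` is a connected set inside `Z` which meets `A` and `B` -/
def Rt (Z A B : Finset X) (Q : Finset X) : Prop :=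
  Q ⊆ Z ∧ Cn G Q ∧ (∃ a ∈ Q, a ∈ A) ∧ ∃ b ∈ Q, b ∈ B

/-- two disjoint routes in a graph -/
theorem two_graph (S A B : Finset X) (h0 : ∃ Q, Rt G S A B Q)
    (h : ∀ z ∈ S, ∃ Q, Rt G S A B Q ∧ z ∉ Q) :
    ∃ Q1 Q2, Rt G S A B Q1 ∧ Rt G S A B Q2 ∧ ∀ z ∈ Q1, z ∉ Q2 := by
  obtain ⟨Q0, hQS, hQc, hQA, hQB⟩ := h0
  obtain ⟨x, hx⟩ := hQc.1
  have hxS : x ∈ S := hQS hx
  have hD : Cn G (cpt G S x) := Pool.Agent.H175R2.cn_cpt hxS
  have hQD : Q0 ⊆ cpt G S x := Pool.Agent.H175R2.subset_cpt hQS hQc hx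
  have hDS : cpt G S x ⊆ S := Pool.Agent.H175R2.cpt_subset
  have hDR : Rt G S A B (cpt G S x) := by
    obtain ⟨a, ha, ha'⟩ := hQA
    obtain ⟨b, hb, hb'⟩ := hQB
    exact ⟨hDS, hD, ⟨a, hQD ha, ha'⟩, ⟨b, hQD hb, hb'⟩⟩
  by_cases hcase : ∃ Q, Rt G S A B Q ∧ ¬ (Q ∩ cpt G S x).Nonempty
  · obtain ⟨Q, hQ, hne⟩ := hcase
    refine ⟨cpt G S x, Q, hDR, hQ, fun z hz hz' => hne ⟨z, ?_⟩⟩
    rw [mem_inter]
    exact ⟨hz', hz⟩
  · push Not at hcase
    obtain ⟨Y, C, hYC, hdis, hYc, hCc, hYA, hYB, hCA, hCB⟩ := hD.menger (A := A) (B := B) (by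
      intro z hz
      obtain ⟨Q, hQ, hzQ⟩ := h z (hDS hz)
      have hi := hcase Q hQ
      have hsub : Q ⊆ cpt G S x := Pool.Agent.H175R2.subset_cpt_of_inter hxS hQ.1 hQ.2.1 hi
      obtain ⟨a, ha, ha'⟩ := hQ.2.2.1
      obtain ⟨b, hb, hb'⟩ := hQ.2.2.2
      refine ⟨Q, fun w hw => ?_, hQ.2.1, ⟨a, mem_inter.mpr ⟨ha, ha'⟩⟩, ⟨b, mem_inter.mpr ⟨hb, hb'⟩⟩⟩
      rw [mem_erase]
      exact ⟨fun e => hzQ (e ▸ hw), hsub hw⟩)
    have hY : Y ⊆ S := fun w hw => hDS (by rw [← hYC]; exact mem_union_left _ hw)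
    have hC : C ⊆ S := fun w hw => hDS (by rw [← hYC]; exact mem_union_right _ hw)
    obtain ⟨a1, ha1⟩ := hYA
    obtain ⟨b1, hb1⟩ := hYB
    obtain ⟨a2, ha2⟩ := hCA
    obtain ⟨b2, hb2⟩ := hCB
    rw [mem_inter] at ha1 hb1 ha2 hb2
    refine ⟨Y, C, ⟨hY, hYc, ⟨a1, ha1⟩, ⟨b1, hb1⟩⟩, ⟨hC, hCc, ⟨a2, ha2⟩, ⟨b2, hb2⟩⟩, ?_⟩
    intro z hz hz'
    exact (disjoint_left.mp hdis) hz hz'

end graph

section sys

variable {V ι : Type*} [DecidableEq V] [DecidableEq ι] (N : ι → Finset V)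

omit [DecidableEq V] [DecidableEq ι] in
lemma RE_mono {Q Q' : Finset ι} (h : Q ⊆ Q') {x y : V} (hxy : RE N Q x y) : RE N Q' x y := by
  induction hxy with
  | refl => exact Relation.ReflTransGen.refl
  | tail _ hst ih =>
    obtain ⟨i, hi, ha, hb⟩ := hst
    exact ih.tail ⟨i, h hi, ha, hb⟩

omit [DecidableEq V] [DecidableEq ι] in
lemma RE_symm {Q : Finset ι} {x y : V} (hxy : RE N Q x y) : RE N Q y x := by
  induction hxy with
  | refl => exact Relation.ReflTransGen.refl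
  | tail _ hst ih =>
    obtain ⟨i, hi, ha, hb⟩ := hst
    exact Relation.ReflTransGen.head ⟨i, hi, hb, ha⟩ ih

omit [DecidableEq V] [DecidableEq ι] in
lemma RE_step {Q : Finset ι} {i : ι} (hi : i ∈ Q) {x y : V} (hx : x ∈ N i) (hy : y ∈ N i) :
    RE N Q x y := Relation.ReflTransGen.single ⟨i, hi, hx, hy⟩

omit [DecidableEq V] in
theorem two_routes (P : Finset ι)
    (cap : ι → Prop) (x y : V) (h : RE N P x y) (h2 : ∀ f ∈ P, cap f → RE N (P.erase f) x y) :
    ∃ Y1 ⊆ P, ∃ Y2 ⊆ P, RE N Y1 x y ∧ RE N Y2 x y ∧ ∀ f, f ∈ Y1 → f ∈ Y2 → ¬ cap f := by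
  classical
  obtain ⟨P0, hP0⟩ : ∃ P0, P0 = P.filter (fun f => ¬ cap f) := ⟨_, rfl⟩
  obtain ⟨W, hW⟩ : ∃ W, W = P.filter cap := ⟨_, rfl⟩
  have hP0P : P0 ⊆ P := by rw [hP0]; exact Finset.filter_subset _ _
  have hWP : W ⊆ P := by rw [hW]; exact Finset.filter_subset _ _
  have hP0c : ∀ f ∈ P0, ¬ cap f := fun f hf => by
    rw [hP0, Finset.mem_filter] at hf
    exact hf.2
  by_cases h0 : RE N P0 x y
  · exact ⟨P0, hP0P, P0, hP0P, h0, h0, fun f hf _ => hP0c f hf⟩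
  -- the graph on the capacity elements
  obtain ⟨X, ⟨e⟩⟩ : ∃ X : Type, Nonempty (X ≃ W) := ⟨Fin W.card, ⟨W.equivFin.symm⟩⟩
  let _ : Fintype X := Fintype.ofEquiv W e.symm
  have hcapW : ∀ i : X, cap (e i) := fun i => by
    have h3 : ∀ f ∈ W, cap f := fun f hf => by
      rw [hW, Finset.mem_filter] at hf
      exact hf.2
    exact h3 _ (e i).2
  let R : X → X → Prop := fun i j => ∃ u ∈ N (e i), ∃ v ∈ N (e j), RE N P0 u v
  have hRs : ∀ i j, R i j → R j i := by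
    rintro i j ⟨u, hu, v, hv, huv⟩
    exact ⟨v, hv, u, hu, RE_symm N huv⟩
  let G : SimpleGraph (X) := SimpleGraph.fromRel R
  have hG : ∀ i j, G.Adj i j ↔ i ≠ j ∧ R i j := by
    intro i j
    rw [SimpleGraph.fromRel_adj]
    constructor
    · rintro ⟨h1, h3 | h3⟩
      · exact ⟨h1, h3⟩
      · exact ⟨h1, hRs _ _ h3⟩
    · rintro ⟨h1, h3⟩
      exact ⟨h1, Or.inl h3⟩
  let A : Finset (X) := Finset.univ.filter fun i => ∃ u ∈ N (e i), RE N P0 x u
  let B : Finset (X) := Finset.univ.filter fun i => ∃ u ∈ N (e i), RE N P0 u y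
  have hA : ∀ i, i ∈ A ↔ ∃ u ∈ N (e i), RE N P0 x u := fun i => by simp [A]
  have hB : ∀ i, i ∈ B ↔ ∃ u ∈ N (e i), RE N P0 u y := fun i => by simp [B]
  -- from a path to a connected set
  have key1 : ∀ (P' : Finset ι) (Z : Finset (X)),
      (∀ f ∈ P', f ∈ P0 ∨ ∃ i ∈ Z, (e i : ι) = f) → RE N P' x y → ∃ Q, Rt G Z A B Q := by
    intro P' Z hZ hp
    have claim : ∀ v, RE N P' x v → RE N P0 x v ∨ ∃ Q : Finset (X), Q ⊆ Z ∧ Cn G Q ∧
        (∃ a ∈ Q, a ∈ A) ∧ ∃ i ∈ Q, ∃ u ∈ N (e i), RE N P0 u v := by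
      intro v hv
      induction hv with
      | refl => exact Or.inl Relation.ReflTransGen.refl
      | @tail v w _ hst ih =>
        obtain ⟨g, hg, hvg, hwg⟩ := hst
        rcases hZ g hg with hg0 | ⟨j, hjZ, hj⟩
        · rcases ih with ih | ⟨Q, q1, q2, q3, i, hi, u, hu, huv⟩
          · exact Or.inl (ih.trans (RE_step N hg0 hvg hwg))
          · exact Or.inr ⟨Q, q1, q2, q3, i, hi, u, hu, huv.trans (RE_step N hg0 hvg hwg)⟩
        · right
          rw [← hj] at hvg hwg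
          rcases ih with ih | ⟨Q, q1, q2, q3, i, hi, u, hu, huv⟩
          · refine ⟨{j}, ?_, Cn.singleton j, ⟨j, ?_, ?_⟩, ⟨j, ?_, w, hwg,
              Relation.ReflTransGen.refl⟩⟩
            · intro a ha
              rw [Finset.mem_singleton] at ha
              rw [ha]; exact hjZ
            · exact Finset.mem_singleton_self j
            · rw [hA]; exact ⟨v, hvg, ih⟩
            · exact Finset.mem_singleton_self j
          · have hc : Cn G (Q ∪ {j}) := by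
              refine q2.union (Cn.singleton j) ?_
              by_cases hij : i = j
              · right
                refine ⟨j, ?_⟩
                rw [Finset.mem_inter]
                exact ⟨hij ▸ hi, Finset.mem_singleton_self j⟩
              · left
                refine ⟨i, hi, j, Finset.mem_singleton_self j, ?_⟩
                rw [hG]
                exact ⟨hij, u, hu, v, hvg, huv⟩
            obtain ⟨a, ha, ha'⟩ := q3
            refine ⟨Q ∪ {j}, ?_, hc, ⟨a, Finset.mem_union_left _ ha, ha'⟩, ⟨j,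
              Finset.mem_union_right _ (Finset.mem_singleton_self j), w, hwg,
              Relation.ReflTransGen.refl⟩⟩
            intro b hb
            rcases Finset.mem_union.mp hb with hb | hb
            · exact q1 hb
            · rw [Finset.mem_singleton] at hb
              rw [hb]; exact hjZ
    rcases claim y hp with h3 | ⟨Q, q1, q2, q3, i, hi, u, hu, huv⟩
    · exact absurd h3 h0
    · exact ⟨Q, q1, q2, q3, i, hi, (hB i).mpr ⟨u, hu, huv⟩⟩
  -- from a connected set to a path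
  have key2 : ∀ (Z Q : Finset (X)), Rt G Z A B Q →
      RE N (P0 ∪ Q.image (fun i => (e i : ι))) x y := by
    intro Z Q hQ
    obtain ⟨-, hc, ⟨a, ha, haA⟩, ⟨b, hb, hbB⟩⟩ := hQ
    obtain ⟨Y, hY⟩ : ∃ Y, Y = P0 ∪ Q.image (fun i => (e i : ι)) := ⟨_, rfl⟩
    rw [← hY]
    have hY0 : P0 ⊆ Y := by rw [hY]; exact Finset.subset_union_left
    have hYe : ∀ i ∈ Q, (e i : ι) ∈ Y := fun i hi => by
      rw [hY]
      exact Finset.mem_union_right _ (Finset.mem_image_of_mem _ hi)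
    obtain ⟨T, hT⟩ : ∃ T, T = Q.filter (fun i => ∃ u ∈ N (e i), RE N Y x u) := ⟨_, rfl⟩
    have hTm : ∀ i, i ∈ T ↔ i ∈ Q ∧ ∃ u ∈ N (e i), RE N Y x u := fun i => by
      rw [hT, Finset.mem_filter]
    have haT : a ∈ T := by
      rw [hTm]
      obtain ⟨u, hu, hxu⟩ := (hA a).mp haA
      exact ⟨ha, u, hu, RE_mono N hY0 hxu⟩
    have hall : ∀ i ∈ Q, i ∈ T := by
      by_contra hcon
      push Not at hcon
      obtain ⟨i, hi, hiT⟩ := hcon
      obtain ⟨s, hs, t, ht, hst⟩ := hc.2 T (fun w hw => ((hTm w).mp hw).1) ⟨a, haT⟩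
        ⟨i, Finset.mem_sdiff.mpr ⟨hi, hiT⟩⟩
      rw [Finset.mem_sdiff] at ht
      apply ht.2
      rw [hTm]
      obtain ⟨hsQ, u, hu, hxu⟩ := (hTm s).mp hs
      obtain ⟨-, u', hu', v', hv', huv'⟩ := (hG s t).mp hst
      exact ⟨ht.1, v', hv', (hxu.trans (RE_step N (hYe s hsQ) hu hu')).trans
        (RE_mono N hY0 huv')⟩
    obtain ⟨hbQ, u, hu, hxu⟩ := (hTm b).mp (hall b hb)
    obtain ⟨u', hu', hy'⟩ := (hB b).mp hbB
    exact (hxu.trans (RE_step N (hYe b hbQ) hu hu')).trans (RE_mono N hY0 hy')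
  have hmem : ∀ f ∈ P, f ∈ P0 ∨ ∃ i : X, (e i : ι) = f := by
    intro f hf
    by_cases hcf : cap f
    · right
      have hfW : f ∈ W := by rw [hW, Finset.mem_filter]; exact ⟨hf, hcf⟩
      exact ⟨e.symm ⟨f, hfW⟩, by rw [Equiv.apply_symm_apply]⟩
    · left
      rw [hP0, Finset.mem_filter]
      exact ⟨hf, hcf⟩
  obtain ⟨Q1, Q2, hQ1, hQ2, hdis⟩ := two_graph G Finset.univ A B
    (key1 P Finset.univ (fun f hf => by
      rcases hmem f hf with h3 | ⟨i, hi⟩
      · exact Or.inl h3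
      · exact Or.inr ⟨i, Finset.mem_univ i, hi⟩) h)
    (by
      intro z _
      obtain ⟨Q, hQ⟩ := key1 (P.erase (e z)) (Finset.univ.filter (fun i => i ≠ z)) (fun f hf => by
        have hf' := Finset.mem_erase.mp hf
        rcases hmem f hf'.2 with h3 | ⟨i, hi⟩
        · exact Or.inl h3
        · refine Or.inr ⟨i, ?_, hi⟩
          rw [Finset.mem_filter]
          refine ⟨Finset.mem_univ i, ?_⟩
          rintro rfl
          exact hf'.1 hi.symm) (h2 (e z) (hWP (e z).2) (hcapW z))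
      refine ⟨Q, ⟨fun w _ => Finset.mem_univ w, hQ.2⟩, fun hz => ?_⟩
      have := hQ.1 hz
      rw [Finset.mem_filter] at this
      exact this.2 rfl)
  have hsub : ∀ Q : Finset (X), P0 ∪ Q.image (fun i => (e i : ι)) ⊆ P := by
    intro Q f hf
    rcases Finset.mem_union.mp hf with hf | hf
    · exact hP0P hf
    · obtain ⟨i, -, rfl⟩ := Finset.mem_image.mp hf
      exact hWP (e i).2
  refine ⟨_, hsub Q1, _, hsub Q2, key2 _ Q1 hQ1, key2 _ Q2 hQ2, ?_⟩
  intro f hf1 hf2 hcf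
  have g1 : f ∉ P0 := fun h3 => hP0c f h3 hcf
  rcases Finset.mem_union.mp hf1 with h3 | h3
  · exact g1 h3
  rcases Finset.mem_union.mp hf2 with h4 | h4
  · exact g1 h4
  obtain ⟨i, hi, hif⟩ := Finset.mem_image.mp h3
  obtain ⟨j, hj, hjf⟩ := Finset.mem_image.mp h4
  have hij : i = j := e.injective (Subtype.ext (hif.trans hjf.symm))
  rw [← hij] at hj
  exact hdis i hi hj

end sys

end Pool.Agent.Helper46.KC
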